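import Pool.Agent.Helper7.OV.Goals2

set_option autoImplicit false

open Finset

namespace Pool.Agent.Helper35.OV.VP

open Pool.Agent.Helper7.OV
open scoped Polynomial

/-- the exchange of the variables -/
noncomputable def sw (F : P2) : P2 := Polynomial.Bivariate.swap F

theorem sw_add (F G : P2) : sw (F + G) = sw F + sw G := map_add Polynomial.Bivariate.swap F G

theorem sw_mon (n m : ℕ) (r : ℤ) : sw (Polynomial.monomial n (Polynomial.monomial m r)) =
    Polynomial.monomial m (Polynomial.monomial n r) :=
  Polynomial.Bivariate.swap_monomial_monomial n m r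

theorem P2_ind {P : P2 → Prop} (F : P2) (h0 : ∀ F G : P2, P F → P G → P (F + G))
    (h1 : ∀ (n m : ℕ) (r : ℤ), P (Polynomial.monomial n (Polynomial.monomial m r))) : P F := by
  induction F using Polynomial.induction_on' with
  | add F G hF hG => exact h0 F G hF hG
  | monomial n f =>
    induction f using Polynomial.induction_on' with
    | add f g hf hg =>
      rw [map_add]
      exact h0 _ _ hf hg
    | monomial m r => exact h1 n m r

theorem co_sw (F : P2) (i j : ℕ) : co (sw F) i j = co F j i := by
  refine P2_ind (P := fun F => co (sw F) i j = co F j i) F ?_ ?_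
  · intro F G hF hG
    unfold co at *
    rw [sw_add, Polynomial.coeff_add, Polynomial.coeff_add, hF, hG, Polynomial.coeff_add,
      Polynomial.coeff_add]
  · intro n m r
    unfold co
    rw [sw_mon]
    simp only [Polynomial.coeff_monomial]
    split_ifs <;> simp_all [Polynomial.coeff_monomial]

theorem ev_sw (p q : ℤ) (F : P2) : ev q p (sw F) = ev p q F := by
  refine P2_ind (P := fun F => ev q p (sw F) = ev p q F) F ?_ ?_
  · intro F G hF hG
    unfold ev at *
    rw [sw_add, Polynomial.evalEval_add, hF, hG, Polynomial.evalEval_add]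
  · intro n m r
    unfold ev
    rw [sw_mon]
    simp only [Polynomial.evalEval, Polynomial.eval_monomial, Polynomial.eval_mul,
      Polynomial.eval_pow, Polynomial.eval_C]
    ring

theorem cf_sw (F : P2) (k l : ℤ) : cf (sw F) k l = cf F l k := by
  unfold cf
  rw [co_sw]
  by_cases h : 0 ≤ k ∧ 0 ≤ l
  · rw [if_pos h, if_pos h.symm]
  · rw [if_neg h, if_neg fun h' => h h'.symm]

theorem fp_fq (k l : ℤ) : fp k l = fq l k := by
  unfold fp fq
  rw [add_comm k l]

theorem exists_big (F : P2) : ∃ N : ℕ, F.natDegree + 1 ≤ N ∧ ∀ j, (F.coeff j).natDegree + 1 ≤ N := by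
  refine ⟨F.natDegree + 1 + ∑ j ∈ range (F.natDegree + 1), (F.coeff j).natDegree, by omega,
    fun j => ?_⟩
  rcases Nat.lt_or_ge j (F.natDegree + 1) with h | h
  · have : (F.coeff j).natDegree ≤ ∑ j ∈ range (F.natDegree + 1), (F.coeff j).natDegree :=
      single_le_sum (f := fun j => (F.coeff j).natDegree) (fun _ _ => Nat.zero_le _)
        (mem_range.2 h)
    omega
  · rw [Polynomial.coeff_eq_zero_of_natDegree_lt (by omega), Polynomial.natDegree_zero]
    omega

theorem act_big (F : P2) (m : Ser) (k l : ℤ) {N : ℕ} (h1 : F.natDegree + 1 ≤ N)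
    (h2 : ∀ j, (F.coeff j).natDegree + 1 ≤ N) :
    act F m k l = ∑ j ∈ range N, ∑ i ∈ range N, (co F i j : ℚ) * m (k - i) (l - j) := by
  unfold act
  have e : ∀ j : ℕ, ∑ i ∈ range ((F.coeff j).natDegree + 1), (co F i j : ℚ) * m (k - i) (l - j) =
      ∑ i ∈ range N, (co F i j : ℚ) * m (k - i) (l - j) := by
    intro j
    refine sum_subset (range_subset_range.2 (h2 j)) fun i _ hi => ?_
    rw [mem_range, not_lt] at hi
    have : co F i j = 0 := by
      unfold co
      exact Polynomial.coeff_eq_zero_of_natDegree_lt (by omega)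
    rw [this, Int.cast_zero, zero_mul]
  rw [sum_congr rfl fun j _ => e j]
  refine sum_subset (range_subset_range.2 h1) fun j _ hj => ?_
  rw [mem_range, not_lt] at hj
  refine sum_eq_zero fun i _ => ?_
  have : co F i j = 0 := by
    unfold co
    have hz : F.coeff j = 0 := Polynomial.coeff_eq_zero_of_natDegree_lt (by omega)
    rw [hz, Polynomial.coeff_zero]
  rw [this, Int.cast_zero, zero_mul]

theorem act_sw (F : P2) (k l : ℤ) : act (sw F) fq k l = act F fp l k := by
  obtain ⟨N1, a1, a2⟩ := exists_big F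
  obtain ⟨N2, b1, b2⟩ := exists_big (sw F)
  have c1 : F.natDegree + 1 ≤ max N1 N2 := le_trans a1 (le_max_left _ _)
  have c2 : ∀ j, (F.coeff j).natDegree + 1 ≤ max N1 N2 := fun j =>
    le_trans (a2 j) (le_max_left _ _)
  have d1 : (sw F).natDegree + 1 ≤ max N1 N2 := le_trans b1 (le_max_right _ _)
  have d2 : ∀ j, ((sw F).coeff j).natDegree + 1 ≤ max N1 N2 := fun j =>
    le_trans (b2 j) (le_max_right _ _)
  rw [act_big F fp l k c1 c2, act_big (sw F) fq k l d1 d2, sum_comm]
  refine sum_congr rfl fun j _ => sum_congr rfl fun i _ => ?_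
  rw [co_sw, fp_fq]

theorem t : S_VP := by
  intro hS hVQ p q w T A C hp h3 hpq hw hd hc
  have h1 := hVQ hS q p w T (sw A) (sw C) hp h3 hpq hw hd ?_
  · rwa [ev_sw, ev_sw] at h1
  · intro k l hkl
    have h2 := hc l k (by linarith)
    simp only at h2 ⊢
    rw [cf_sw, act_sw, h2]

end Pool.Agent.Helper35.OV.VP
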